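import Pool.Agent.Helper58.PLK.Base
import Pool.Agent.Helper58.PLK.A1.B0
import Pool.Agent.Helper58.PLK.A1.B1
import Pool.Agent.Helper58.PLK.A1.B2
import Pool.Agent.Helper58.PLK.A1.B3
import Pool.Agent.Helper58.PLK.A1.B4
import Pool.Agent.Helper58.PLK.A1.S0
import Pool.Agent.Helper58.PLK.A1.S1
import Pool.Agent.Helper58.PLK.A1.S2
import Pool.Agent.Helper58.PLK.A1.S3
import Pool.Agent.Helper58.PLK.A1.S4
import Pool.Agent.Helper58.PLK.A1.S5

/-!
# The case A1 is impossible (generated)
-/

set_option maxRecDepth 100000

namespace Pool.Agent.Helper58.PLK.A1

theorem one : Nat.beq (Nat.land (full t u 0) 2) 2 = true := by decide +kernel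

theorem last : Nat.beq (full t u (nat_lit 70410)) 1 = true := by decide +kernel

theorem unsat {Se : Nat → Prop} (hgen : ∀ a, ClauseT Se (gen (exA1 ht) ht a)) : False := by
  have h : Inv (asg Se vt) t u 1 := inv_one one
  replace h := base_seg b0 hgen h
  replace h := base_seg b1 hgen h
  replace h := base_seg b2 hgen h
  replace h := base_seg b3 hgen h
  replace h := base_seg b4 hgen h
  replace h := base_seg b5 hgen h
  replace h := base_seg b6 hgen h
  replace h := base_seg b7 hgen h
  replace h := base_seg b8 hgen h
  replace h := base_seg b9 hgen h
  replace h := base_seg b10 hgen h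
  replace h := base_seg b11 hgen h
  replace h := base_seg b12 hgen h
  replace h := base_seg b13 hgen h
  replace h := base_seg b14 hgen h
  replace h := base_seg b15 hgen h
  replace h := base_seg b16 hgen h
  replace h := base_seg b17 hgen h
  replace h := base_seg b18 hgen h
  replace h := base_seg b19 hgen h
  replace h := base_seg b20 hgen h
  replace h := base_seg b21 hgen h
  replace h := base_seg b22 hgen h
  replace h := base_seg b23 hgen h
  replace h := base_seg b24 hgen h
  replace h := base_seg b25 hgen h
  replace h := base_seg b26 hgen h
  replace h := base_seg b27 hgen h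
  replace h := base_seg b28 hgen h
  replace h := base_seg b29 hgen h
  replace h := base_seg b30 hgen h
  replace h := base_seg b31 hgen h
  replace h := base_seg b32 hgen h
  replace h := base_seg b33 hgen h
  replace h := base_seg b34 hgen h
  replace h := base_seg b35 hgen h
  replace h := base_seg b36 hgen h
  replace h := base_seg b37 hgen h
  replace h := base_seg b38 hgen h
  replace h := base_seg b39 hgen h
  replace h := base_seg b40 hgen h
  replace h := base_seg b41 hgen h
  replace h := base_seg b42 hgen h
  replace h := base_seg b43 hgen h
  replace h := base_seg b44 hgen h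
  replace h := base_seg b45 hgen h
  replace h := base_seg b46 hgen h
  replace h := base_seg b47 hgen h
  replace h := base_seg b48 hgen h
  replace h := base_seg b49 hgen h
  replace h := base_seg b50 hgen h
  replace h := base_seg b51 hgen h
  replace h := base_seg b52 hgen h
  replace h := base_seg b53 hgen h
  replace h := base_seg b54 hgen h
  replace h := base_seg b55 hgen h
  replace h := base_seg b56 hgen h
  replace h := seg_sound (by decide) s0 h
  replace h := seg_sound (by decide) s1 h
  replace h := seg_sound (by decide) s2 h
  replace h := seg_sound (by decide) s3 h
  replace h := seg_sound (by decide) s4 h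
  replace h := seg_sound (by decide) s5 h
  replace h := seg_sound (by decide) s6 h
  replace h := seg_sound (by decide) s7 h
  replace h := seg_sound (by decide) s8 h
  replace h := seg_sound (by decide) s9 h
  replace h := seg_sound (by decide) s10 h
  replace h := seg_sound (by decide) s11 h
  replace h := seg_sound (by decide) s12 h
  replace h := seg_sound (by decide) s13 h
  replace h := seg_sound (by decide) s14 h
  replace h := seg_sound (by decide) s15 h
  replace h := seg_sound (by decide) s16 h
  replace h := seg_sound (by decide) s17 h
  replace h := seg_sound (by decide) s18 h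
  replace h := seg_sound (by decide) s19 h
  replace h := seg_sound (by decide) s20 h
  exact false_of_inv last h

end Pool.Agent.Helper58.PLK.A1
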